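import Pool.Agent.H24.CL.TargetsK

/-!
# clk_modules, FR: the free form with `k` full paths (helper5)
-/

set_option autoImplicit false

open Finset MeasureTheory

namespace Pool.Agent.H5.CLK

open Pool.Agent.H24.CL

/-- the state after `i` popular paths -/
def St (k q : ℕ) (W : ℕ → Set (X k)) (Y Y' : Finset (X k)) (p : ℕ → X k → List ℕ)
    (s : ℕ → X k → X k) (F : ℝ) (i : ℕ) : Prop :=
  Y' ⊆ Y ∧ (∀ i' < i, ∀ y ∈ Y', (p i' y).length = k - 1 ∧ (∀ b ∈ p i' y, b < q) ∧
    s i' y ∈ H k q 1 ∧ ∀ t, 1 ≤ t → t + 1 ≤ k → Ch q ((p i' y).take t) (y + s i' y) ∈ W t) ∧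
  (∀ i' < i, ∀ y ∈ Y', ∀ y' ∈ Y', p i' y = p i' y') ∧
  (∀ i' < i, ∀ i'' < i', ∀ y ∈ Y', (p i' y).headD 0 ≠ (p i'' y).headD 0) ∧
  (Y.card : ℝ) ≤ Y'.card * F ^ i

theorem paths (hPP : TK_PP) (k q : ℕ) (hk : 3 ≤ k) (hq : 1 ≤ q) (W : ℕ → Set (X k)) (n : ℕ → ℝ)
    (β : ℝ) (Y : Finset (X k)) (hcar : ∀ l, 1 ≤ l → l + 2 ≤ k → 1 ≤ n l ∧ Car q (W l) (W (l + 1)) (n l))
    (hβ : 2 * (k : ℝ) ≤ β)
    (hD : ∀ y ∈ Y, ∃ D : Finset ℕ, D ⊆ range q ∧ (∀ b ∈ D, phi q b y ∈ W 1) ∧ β ≤ (D.card : ℝ)) :
    ∀ i ≤ k, ∃ (Y' : Finset (X k)) (p : ℕ → X k → List ℕ) (s : ℕ → X k → X k),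
      St k q W Y Y' p s ((q : ℝ) / (β / 2) * ∏ l ∈ Icc 1 (k - 2), ((q : ℝ) / n l)) i := by
  classical
  have hk0 : (3 : ℝ) ≤ k := by exact_mod_cast hk
  have hβ0 : 0 < β := by linarith
  choose! D hD1 hD2 hD3 using hD
  intro i
  induction i with
  | zero =>
    intro _
    exact ⟨Y, fun _ _ => [], fun _ _ => 0, subset_rfl, fun i' hi' => absurd hi' (by omega),
      fun i' hi' => absurd hi' (by omega), fun i' hi' => absurd hi' (by omega), by simp⟩
  | succ i ih =>
    intro hi
    obtain ⟨Y', p, s, h1, h2, h3, h4, h5⟩ := ih (by omega)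
    set Dg : X k → Finset ℕ := fun y => D y \ (range i).image fun i' => (p i' y).headD 0 with hDg
    have hcard : ∀ y ∈ Y', β / 2 ≤ ((Dg y).card : ℝ) := by
      intro y hy
      have e1 : (D y).card - ((range i).image fun i' => (p i' y).headD 0).card ≤ (Dg y).card :=
        Finset.le_card_sdiff _ _
      have e2 : ((range i).image fun i' => (p i' y).headD 0).card ≤ i :=
        (Finset.card_image_le).trans (by rw [card_range])
      have e3 : (D y).card ≤ (Dg y).card + k := by omega
      have e4 : ((D y).card : ℝ) ≤ (Dg y).card + k := by exact_mod_cast e3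
      have e5 := hD3 y (h1 hy)
      linarith
    obtain ⟨Y'', p', s', g1, g2, g3, g4⟩ := hPP k q 1 k W (fun _ => 0) n (β / 2) Y' Dg hq (by omega)
      (by linarith) (fun l h1 h2 => ⟨lt_of_lt_of_le one_pos (hcar l h1 h2).1, (hcar l h1 h2).2⟩)
      (fun y hy => ⟨(Finset.sdiff_subset).trans (hD1 y (h1 hy)), hcard y hy, fun b hb =>
        ⟨0, zero_mem _, by
          rw [add_zero]
          exact hD2 y (h1 hy) b (Finset.mem_sdiff.1 hb).1⟩⟩)
    have hfil : (Icc 1 (k - 2)).filter (fun l => max 1 0 + l < k) = Icc 1 (k - 2) := by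
      apply Finset.filter_true_of_mem
      intro l hl
      rw [mem_Icc] at hl
      have : max 1 0 = 1 := rfl
      omega
    rw [hfil] at g4
    refine ⟨Y'', fun j => if j = i then p' else p j, fun j => if j = i then s' else s j,
      g1.trans h1, ?_, ?_, ?_, ?_⟩
    · intro i' hi' y hy
      by_cases hii : i' = i
      · simp only [if_pos hii]
        obtain ⟨a1, a2, a3, a4, a5⟩ := g2 y hy
        exact ⟨a1, a2, a4, a5⟩
      · simp only [if_neg hii]
        exact h2 i' (by omega) y (g1 hy)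
    · intro i' hi' y hy y' hy'
      by_cases hii : i' = i
      · simp only [if_pos hii]
        obtain ⟨b1, b2⟩ := g3 y hy y' hy'
        apply List.ext_getElem?
        intro l
        rcases Nat.eq_zero_or_pos l with hl | hl
        · subst hl
          rw [← List.head?_eq_getElem?, ← List.head?_eq_getElem?]
          exact b1
        · by_cases hl2 : l + 2 ≤ k
          · exact b2 l hl hl2 (by
              have : max 1 0 = 1 := rfl
              omega)
          · rw [List.getElem?_eq_none (by rw [(g2 y hy).1]; omega),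
              List.getElem?_eq_none (by rw [(g2 y' hy').1]; omega)]
      · simp only [if_neg hii]
        exact h3 i' (by omega) y (g1 hy) y' (g1 hy')
    · intro i' hi' i'' hi'' y hy
      have hi2 : i'' ≠ i := by omega
      by_cases hii : i' = i
      · simp only [if_pos hii, if_neg hi2]
        obtain ⟨a1, a2, ⟨b, hb1, hb2⟩, a4, a5⟩ := g2 y hy
        have hb3 : (p' y).headD 0 = b := by
          rw [List.headD_eq_head?_getD, hb2]
          rfl
        rw [hb3]
        intro hcon
        apply (Finset.mem_sdiff.1 hb1).2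
        rw [mem_image]
        exact ⟨i'', mem_range.2 (by omega), hcon.symm⟩
      · simp only [if_neg hii, if_neg hi2]
        exact h4 i' (by omega) i'' hi'' y (g1 hy)
    · set F : ℝ := (q : ℝ) / (β / 2) * ∏ l ∈ Icc 1 (k - 2), ((q : ℝ) / n l) with hF
      have hF0 : 0 ≤ F := by
        rw [hF]
        apply mul_nonneg (div_nonneg (Nat.cast_nonneg _) (by linarith))
        apply prod_nonneg
        intro l hl
        rw [mem_Icc] at hl
        exact div_nonneg (Nat.cast_nonneg _) (by linarith [(hcar l hl.1 (by omega)).1])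
      calc (Y.card : ℝ) ≤ Y'.card * F ^ i := h5
        _ ≤ (Y''.card * F) * F ^ i := mul_le_mul_of_nonneg_right g4 (pow_nonneg hF0 _)
        _ = Y''.card * F ^ (i + 1) := by ring

/-- counting the points with the same `k` full paths -/
theorem count (hHM : TK_HM) (hVF : TK_VF) (k q : ℕ) (hk : 3 ≤ k) (hq : q.Prime) (hkq : k < q)
    (W : ℕ → Set (X k)) (G : ℕ → ℝ) (F : ℝ) (Y Y' : Finset (X k)) (p : ℕ → X k → List ℕ)
    (s : ℕ → X k → X k) (hG : ∀ l, 1 ≤ l → l + 1 ≤ k → 1 ≤ G l ∧ Cnt (Ln k q) (W l) (G l))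
    (hst : St k q W Y Y' p s F k)
    (hinj : ∀ y ∈ Y, ∀ y' ∈ Y, y - y' ∈ H k q 1 → y = y') :
    ∀ j, 1 ≤ j → j ≤ k → ∀ S ⊆ Y', (∀ y ∈ S, ∀ y' ∈ S, y - y' ∈ H k q j) →
      (S.card : ℝ) ≤ ∏ l ∈ Icc 1 (j - 1), G l ^ k := by
  classical
  obtain ⟨h1, h2, h3, h4, -⟩ := hst
  obtain ⟨m1, m2, m3, m4, m5⟩ := hHM k q hq.one_lt.le
  intro j hj
  induction j, hj using Nat.le_induction with
  | base =>
    intro _ S hS hSd
    have : S.card ≤ 1 := by
      rw [Finset.card_le_one]
      intro y hy y' hy'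
      exact hinj y (h1 (hS hy)) y' (h1 (hS hy')) (hSd y hy y' hy')
    have h0 : (∏ l ∈ Icc 1 (1 - 1), G l ^ k) = 1 := by simp
    rw [h0]
    exact_mod_cast this
  | succ j hj ih =>
    intro hjk S hS hSd
    -- the values
    set v : Fin k → X k → X k := fun i y => Ch q ((p i y).take j) (y + s i y) with hv
    have hlen : ∀ i : Fin k, ∀ y ∈ S, ((p i y).take j).length = j := by
      intro i y hy
      rw [List.length_take, (h2 i i.isLt y (hS hy)).1]
      omega
    have hvy : ∀ i : Fin k, ∀ y ∈ S, v i y = Ch q ((p i y).take j) y := by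
      intro i y hy
      rw [hv]
      simp only
      rw [map_add, m3 ((p i y).take j) (s i y), add_zero]
      rw [hlen i y hy]
      exact m1 1 j _ hj (h2 i i.isLt y (hS hy)).2.2.1
    have hdiff : ∀ i : Fin k, ∀ y ∈ S, ∀ y' ∈ S,
        v i y - v i y' = Ch q ((p i y).take j) (y - y') := by
      intro i y hy y' hy'
      rw [hvy i y hy, hvy i y' hy', h3 i i.isLt y' (hS hy') y (hS hy), map_sub]
    have hVi : ∀ i : Fin k, (((S.image (v i)).card : ℕ) : ℝ) ≤ G j := by
      intro i
      apply (hG j hj hjk).2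
      · intro z hz
        rw [mem_image] at hz
        obtain ⟨y, hy, rfl⟩ := hz
        exact (h2 i i.isLt y (hS hy)).2.2.2 j hj hjk
      · intro z hz z' hz'
        rw [mem_image] at hz hz'
        obtain ⟨y, hy, rfl⟩ := hz
        obtain ⟨y', hy', rfl⟩ := hz'
        rw [hdiff i y hy y' hy']
        apply m4
        · rw [hlen i y hy]
          exact hj
        · rw [hlen i y hy]
          exact hSd y hy y' hy'
    set P : ℝ := ∏ l ∈ Icc 1 (j - 1), G l ^ k with hP
    have hP0 : 0 ≤ P := by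
      apply prod_nonneg
      intro l hl
      rw [mem_Icc] at hl
      exact pow_nonneg (by linarith [(hG l hl.1 (by omega)).1]) _
    have hmap : ∀ y ∈ S, (fun i => v i y) ∈ Fintype.piFinset fun i : Fin k => S.image (v i) := by
      intro y hy
      rw [Fintype.mem_piFinset]
      intro i
      exact mem_image_of_mem _ hy
    have hfib : ∀ z ∈ Fintype.piFinset fun i : Fin k => S.image (v i),
        (((S.filter fun y => (fun i => v i y) = z).card : ℕ) : ℝ) ≤ P := by
      intro z _
      apply ih (by omega)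
      · exact (Finset.filter_subset _ _).trans hS
      · intro y hy y' hy'
        rw [mem_filter] at hy hy'
        obtain ⟨hy, hz⟩ := hy
        obtain ⟨hy', hz'⟩ := hy'
        have hvv : ∀ i : Fin k, Ch q ((p i y).take j) (y - y') = 0 := by
          intro i
          rw [← hdiff i y hy y' hy', congrFun hz i, congrFun hz' i, sub_self]
        have key := hVF k q hq hkq (j + 1) (y - y')
          ((univ : Finset (Fin k)).image fun i : Fin k => (p i.val y).headD 0) (by omega)
          (hSd y hy y' hy') ?_ ?_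
        · simpa using key
        · intro b hb
          rw [mem_image] at hb
          obtain ⟨i, -, rfl⟩ := hb
          have hl0 := (h2 i i.isLt y (hS hy)).1
          have hvi := hvv i
          have hbq := (h2 i i.isLt y (hS hy)).2.1
          have hli := hlen i y hy
          generalize p i y = c at hl0 hvi hbq hli
          rcases c with _ | ⟨b, c⟩
          · simp only [List.length_nil] at hl0
            omega
          · refine ⟨hbq b (by simp), c.take (j - 1), ?_, ?_⟩
            · rw [List.length_take]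
              simp only [List.length_cons] at hl0
              omega
            · have : (b :: c).take j = b :: c.take (j - 1) := by
                obtain ⟨j', rfl⟩ : ∃ j', j = j' + 1 := ⟨j - 1, by omega⟩
                simp
              rw [this] at hvi
              exact hvi
        · rw [Finset.card_image_of_injective, Finset.card_univ, Fintype.card_fin]
          intro i i' hii
          simp only at hii
          by_contra hne
          rcases lt_or_gt_of_ne (fun h => hne (Fin.ext h) : (i : ℕ) ≠ (i' : ℕ)) with h | h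
          · exact h4 i' i'.isLt i h y (hS hy) hii.symm
          · exact h4 i i.isLt i' h y (hS hy) hii
    have hcount := Finset.card_eq_sum_card_fiberwise hmap
    have hprod : (((Fintype.piFinset fun i : Fin k => S.image (v i)).card : ℕ) : ℝ) ≤ G j ^ k := by
      rw [Fintype.card_piFinset]
      push_cast
      calc ∏ i : Fin k, (((S.image (v i)).card : ℕ) : ℝ) ≤ ∏ _i : Fin k, G j :=
            Finset.prod_le_prod (fun i _ => Nat.cast_nonneg _) fun i _ => hVi i
        _ = G j ^ k := by simp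
    calc (S.card : ℝ) = ∑ z ∈ Fintype.piFinset fun i : Fin k => S.image (v i),
          (((S.filter fun y => (fun i => v i y) = z).card : ℕ) : ℝ) := by
            rw [hcount]
            push_cast
            rfl
      _ ≤ ∑ _z ∈ Fintype.piFinset fun i : Fin k => S.image (v i), P := Finset.sum_le_sum hfib
      _ = ((Fintype.piFinset fun i : Fin k => S.image (v i)).card : ℝ) * P := by
            rw [sum_const, nsmul_eq_mul]
      _ ≤ G j ^ k * P := mul_le_mul_of_nonneg_right hprod hP0
      _ = ∏ l ∈ Icc 1 (j + 1 - 1), G l ^ k := by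
            rw [hP, Nat.add_sub_cancel]
            obtain ⟨j', rfl⟩ : ∃ j', j = j' + 1 := ⟨j - 1, by omega⟩
            rw [Nat.add_sub_cancel, Finset.prod_Icc_succ_top (by omega : 1 ≤ j' + 1), mul_comm]

theorem pf_FR (hPP : TK_PP) (hHM : TK_HM) (hVF : TK_VF) : TK_FR := by
  classical
  intro k hk
  refine ⟨2 ^ k, one_le_pow₀ (by norm_num), ?_⟩
  intro q W n G β Y hq hkq hcar hG hβ hD hYk hinj
  obtain ⟨Y', p, s, hst⟩ := paths hPP k q hk hq.one_lt.le W n β Y hcar hβ hD k le_rfl
  have hk0 : (3 : ℝ) ≤ k := by exact_mod_cast hk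
  have hβ0 : 0 < β := by linarith
  have hc := count hHM hVF k q hk hq hkq W G _ Y Y' p s hG hst hinj k (by omega) le_rfl Y' subset_rfl
    (fun y hy y' hy' => hYk y (hst.1 hy) y' (hst.1 hy'))
  obtain ⟨-, -, -, -, h5⟩ := hst
  set Q : ℝ := ∏ l ∈ Icc 1 (k - 2), ((q : ℝ) / n l) with hQ
  have hQ0 : 0 ≤ Q := by
    apply prod_nonneg
    intro l hl
    rw [mem_Icc] at hl
    exact div_nonneg (Nat.cast_nonneg _) (by linarith [(hcar l hl.1 (by omega)).1])
  have hF0 : 0 ≤ (q : ℝ) / (β / 2) * Q :=
    mul_nonneg (div_nonneg (Nat.cast_nonneg _) (by linarith)) hQ0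
  calc (Y.card : ℝ) ≤ Y'.card * ((q : ℝ) / (β / 2) * Q) ^ k := h5
    _ ≤ (∏ l ∈ Icc 1 (k - 1), G l ^ k) * ((q : ℝ) / (β / 2) * Q) ^ k :=
        mul_le_mul_of_nonneg_right hc (pow_nonneg hF0 _)
    _ = 2 ^ k * ((q : ℝ) / β) ^ k * (∏ l ∈ Icc 1 (k - 2), ((q : ℝ) / n l) ^ k) *
        ∏ l ∈ Icc 1 (k - 1), G l ^ k := by
        have hQk : (∏ l ∈ Icc 1 (k - 2), ((q : ℝ) / n l) ^ k) = Q ^ k := by
          rw [Finset.prod_pow]
        rw [hQk]
        have : (q : ℝ) / (β / 2) = 2 * ((q : ℝ) / β) := by field_simp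
        rw [this, mul_pow, mul_pow]
        ring

end Pool.Agent.H5.CLK
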